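import Pool.Agent.Lib.MP_3efbeb_nt.ER.Defs

/-!
# MP_3efbeb_nt, ER, module MAIN (helper5): `SpecPROB` and `SpecSV` imply `SpecER`
-/

set_option autoImplicit false

namespace Pool.Agent.Lib.MP_3efbeb_nt.ER

open Finset
open scoped Classical

noncomputable section

namespace MAINM

/-- values in the lower half, in arithmetic progression mod `N`, are in arithmetic progression -/
theorem diff_eq {N : ℕ} [NeZero N] (a d : ZMod N) (j : ℕ) (h1 : 2 * (a + (j : ZMod N) * d).val < N)
    (h2 : 2 * (a + ((j + 1 : ℕ) : ZMod N) * d).val < N) :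
    ((a + ((j + 1 : ℕ) : ZMod N) * d).val : ℤ) - ((a + (j : ZMod N) * d).val : ℤ) = d.valMinAbs := by
  symm
  rw [ZMod.valMinAbs_spec]
  constructor
  · push_cast
    rw [ZMod.natCast_zmod_val, ZMod.natCast_zmod_val]
    ring
  · constructor
    · have : (0 : ℤ) ≤ ((a + ((j + 1 : ℕ) : ZMod N) * d).val : ℤ) := Int.natCast_nonneg _
      have h3 : (2 * ((a + (j : ZMod N) * d).val : ℤ)) < N := by exact_mod_cast h1
      linarith
    · have : (0 : ℤ) ≤ ((a + (j : ZMod N) * d).val : ℤ) := Int.natCast_nonneg _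
      have h3 : (2 * ((a + ((j + 1 : ℕ) : ZMod N) * d).val : ℤ)) < N := by exact_mod_cast h2
      linarith

theorem val_eq {N K : ℕ} [NeZero N] (a d : ZMod N) (h : ∀ j < K, 2 * (a + (j : ZMod N) * d).val < N) :
    ∀ j < K, ((a + (j : ZMod N) * d).val : ℤ) = (a.val : ℤ) + j * d.valMinAbs := by
  intro j
  induction j with
  | zero =>
    intro _
    simp
  | succ j ih =>
    intro hj
    have h1 := ih (by omega)
    have h2 := diff_eq a d j (h j (by omega)) (h (j + 1) hj)
    have h3 : ((a + ((j + 1 : ℕ) : ZMod N) * d).val : ℤ) = ((a + (j : ZMod N) * d).val : ℤ) + d.valMinAbs := by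
      linarith
    rw [h3, h1]
    push_cast
    ring

/-- the progression of integers: base `i₀`, difference `D ≥ 1` -/
theorem prog {N K : ℕ} [NeZero N] (hK : 1 ≤ K) (a d : ZMod N) (hd : d ≠ 0)
    (h : ∀ j < K, 2 * (a + (j : ZMod N) * d).val < N) :
    ∃ (i₀ D : ℕ), 1 ≤ D ∧ D ≤ N ∧ i₀ < N ∧ ∀ j < K, ∃ j' < K, i₀ + D * j = (a + (j' : ZMod N) * d).val := by
  have hv := val_eq a d h
  have hne : d.valMinAbs ≠ 0 := by
    intro h0
    exact hd ((ZMod.valMinAbs_eq_zero d).1 h0)
  have hle : d.valMinAbs.natAbs ≤ N := by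
    have := ZMod.natAbs_valMinAbs_le d
    omega
  rcases lt_or_gt_of_ne hne with hlt | hgt
  · -- negative difference
    refine ⟨(a + ((K - 1 : ℕ) : ZMod N) * d).val, d.valMinAbs.natAbs, by omega, hle, ZMod.val_lt _, ?_⟩
    intro j hj
    refine ⟨K - 1 - j, by omega, ?_⟩
    have h1 := hv (K - 1) (by omega)
    have h2 := hv (K - 1 - j) (by omega)
    have h3 : (((K - 1 - j : ℕ) : ℤ)) = ((K - 1 : ℕ) : ℤ) - j := by omega
    have h4 : ((d.valMinAbs.natAbs : ℕ) : ℤ) = - d.valMinAbs := by omega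
    have : ((((a + ((K - 1 : ℕ) : ZMod N) * d).val + d.valMinAbs.natAbs * j : ℕ)) : ℤ) =
        ((a + ((K - 1 - j : ℕ) : ZMod N) * d).val : ℤ) := by
      rw [h2]
      push_cast [-Int.natCast_natAbs]
      rw [h1, h4, h3]
      ring
    exact_mod_cast this
  · refine ⟨a.val, d.valMinAbs.natAbs, by omega, hle, ZMod.val_lt _, ?_⟩
    intro j hj
    refine ⟨j, hj, ?_⟩
    have h2 := hv j hj
    have h4 : ((d.valMinAbs.natAbs : ℕ) : ℤ) = d.valMinAbs := by omega
    have : (((a.val + d.valMinAbs.natAbs * j : ℕ)) : ℤ) = ((a + (j : ZMod N) * d).val : ℤ) := by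
      rw [h2]
      push_cast [-Int.natCast_natAbs]
      rw [h4]
      ring
    exact_mod_cast this

end MAINM

open MAINM in
/-- MAIN. -/
theorem specMAIN (hP : SpecPROB) (hS : SpecSV) : SpecER := by
  classical
  intro k θ hθ
  obtain ⟨K, hKk, hK2⟩ : ∃ K : ℕ, k ≤ K ∧ 2 ≤ K := ⟨max k 2, le_max_left _ _, le_max_right _ _⟩
  obtain ⟨K0, hK0⟩ := hP K hK2
  obtain ⟨Q, hQ1, hQ2⟩ : ∃ Q : ℕ, K0 ≤ Q ∧ K ≤ Q := ⟨max K0 K, le_max_left _ _, le_max_right _ _⟩
  obtain ⟨δ, hδ, hSV⟩ := hS Q θ hθ
  obtain ⟨c, hc, N0', hPR⟩ := hK0 δ hδ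
  -- the size of `N`
  obtain ⟨N1, hN1⟩ : ∃ N1 : ℕ, ∀ N : ℕ, N1 ≤ N → 1 ≤ N ∧ 2 / c ≤ (N : ℝ) ^ (3 / 4 : ℝ) := by
    have h1 : Filter.Tendsto (fun N : ℕ => (N : ℝ) ^ (3 / 4 : ℝ)) Filter.atTop Filter.atTop :=
      (tendsto_rpow_atTop (by norm_num)).comp tendsto_natCast_atTop_atTop
    have h2 := (h1.eventually_ge_atTop (2 / c)).and (Filter.eventually_ge_atTop 1)
    obtain ⟨N1, h3⟩ := Filter.eventually_atTop.1 h2
    exact ⟨N1, fun N hN => ⟨(h3 N hN).2, (h3 N hN).1⟩⟩
  obtain ⟨r0, hr0⟩ := hSV (max N0' N1)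
  refine ⟨r0, fun r hr => ?_⟩
  obtain ⟨N, hNZ, w, τ, hNp, hN0, hw, hτ1, hτQ, hT⟩ := hr0 r hr
  have hNN0 : N0' ≤ N := (le_max_left _ _).trans hN0
  obtain ⟨hNpos, hNc⟩ := hN1 N ((le_max_right _ _).trans hN0)
  have hNr : (0 : ℝ) < N := by exact_mod_cast hNpos
  have hτ0 : 0 < τ := by linarith
  have hτK : τ ^ K ≤ (N : ℝ) ^ (1 / 4 : ℝ) := (pow_le_pow_right₀ hτ1 hQ2).trans hτQ
  refine ⟨w * N, fun t ht => ?_⟩
  obtain ⟨c', C, x0, hc', hX⟩ := hT t ht
  -- the proportion
  set ρ : ℝ := c / 2 / τ ^ K with hρ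
  have hρ0 : 0 < ρ := by positivity
  obtain ⟨x1, hx1⟩ : ∃ x1 : ℕ, ∀ x : ℕ, x1 ≤ x → 1 ≤ Real.log x ∧ 1 / ρ ≤ Real.log x := by
    have h1 : Filter.Tendsto (fun x : ℕ => Real.log x) Filter.atTop Filter.atTop :=
      Real.tendsto_log_atTop.comp tendsto_natCast_atTop_atTop
    have h2 := (h1.eventually_ge_atTop 1).and (h1.eventually_ge_atTop (1 / ρ))
    obtain ⟨x1, h3⟩ := Filter.eventually_atTop.1 h2
    exact ⟨x1, fun x hx => h3 x hx⟩
  have key : ∀ x : ℕ, max x0 x1 ≤ x → ∃ e : ℕ, 1 ≤ e ∧ e ≤ w * N ∧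
      (x : ℝ) / Real.log x ^ (C + 1) ≤ (good k r θ c' (t * e) x).card := by
    intro x hx
    obtain ⟨hl1, hlρ⟩ := hx1 x ((le_max_right _ _).trans hx)
    obtain ⟨S, ν, A, hSne, hSx, hScard, hν0, hνE, hM1, hM2, hM3⟩ := hX x ((le_max_left _ _).trans hx)
    set P : ℕ → ZMod N → Prop := fun n i => 2 * i.val < N ∧ A n i.val with hPdef
    set f : ℕ → ZMod N → ℝ := fun n i => if P n i then τ else 0 with hf
    have hf0 : ∀ n i, 0 ≤ f n i := by
      intro n i
      rw [hf]
      simp only
      split_ifs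
      · exact hτ0.le
      · exact le_rfl
    have hfτ : ∀ n i, f n i ≤ τ := by
      intro n i
      rw [hf]
      simp only
      split_ifs
      · exact le_rfl
      · exact hτ0.le
    have hfν : ∀ n ∈ S, ∀ i, 0 ≤ f n i ∧ f n i ≤ ν n i := by
      intro n hn i
      refine ⟨hf0 n i, ?_⟩
      rw [hf]
      simp only
      split_ifs with h
      · have h1 := (hνE n hn i.val h.1 h.2).2
        rwa [ZMod.natCast_zmod_val] at h1
      · exact hν0 n hn i
    have hsum : ∀ n, ∑ i, f n i = τ * (((range N).filter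
        (fun i => 2 * i < N ∧ A n i)).card : ℝ) := by
      intro n
      rw [hf]
      simp only
      rw [← Finset.sum_filter, Finset.sum_const, nsmul_eq_mul, mul_comm]
      congr 2
      refine Finset.card_bij (fun i _ => i.val) ?_ ?_ ?_
      · intro i hi
        rw [Finset.mem_filter] at hi ⊢
        exact ⟨Finset.mem_range.2 (ZMod.val_lt i), hi.2⟩
      · intro i _ i' _ h
        exact ZMod.val_injective N h
      · intro i hi
        rw [Finset.mem_filter, Finset.mem_range] at hi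
        refine ⟨(i : ZMod N), ?_, ZMod.val_cast_of_lt hi.1⟩
        rw [Finset.mem_filter]
        refine ⟨Finset.mem_univ _, ?_⟩
        rw [hPdef]
        simp only
        rw [ZMod.val_cast_of_lt hi.1]
        exact hi.2
    have hmean : δ * N * S.card ≤ ∑ n ∈ S, ∑ i, f n i := by
      rw [Finset.sum_congr rfl fun n _ => hsum n, ← Finset.mul_sum]
      exact hM3
    have hmain := hPR N hNp hNN0 S ν f hSne hfν (fun T hT => hM1 T (hT.trans hQ1))
      (fun m hm => hM2 m (hm.trans hQ1)) hmean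
    -- the part `d = 0`
    have hScpos : (0 : ℝ) < S.card := by exact_mod_cast Finset.card_pos.2 hSne
    have hprod0 : ∀ n a d, 0 ≤ ∏ j ∈ range K, f n (a + (j : ZMod N) * d) := fun n a d =>
      Finset.prod_nonneg fun j _ => hf0 _ _
    have hprodτ : ∀ n a d, ∏ j ∈ range K, f n (a + (j : ZMod N) * d) ≤ τ ^ K := by
      intro n a d
      have h2 := Finset.prod_le_prod (s := range K) (f := fun j : ℕ => f n (a + (j : ZMod N) * d)) (g := fun _ => τ)
        (fun j _ => hf0 _ _) (fun j _ => hfτ _ _)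
      rw [Finset.prod_const, Finset.card_range] at h2
      exact h2
    have hcardZ : (Finset.univ : Finset (ZMod N)).card = N := by
      rw [Finset.card_univ, ZMod.card]
    -- pigeonhole
    obtain ⟨a, d, hd, had⟩ : ∃ a d : ZMod N, d ≠ 0 ∧
        c / 2 * S.card ≤ ∑ n ∈ S, ∏ j ∈ range K, f n (a + (j : ZMod N) * d) := by
      by_contra hcon
      push Not at hcon
      have h1 : ∑ n ∈ S, ∑ a : ZMod N, ∑ d : ZMod N, ∏ j ∈ range K, f n (a + (j : ZMod N) * d) =
          ∑ a : ZMod N, ∑ d : ZMod N, ∑ n ∈ S, ∏ j ∈ range K, f n (a + (j : ZMod N) * d) := by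
        rw [Finset.sum_comm]
        refine Finset.sum_congr rfl fun a _ => ?_
        rw [Finset.sum_comm]
      have h2 : ∀ a : ZMod N, ∑ d : ZMod N, ∑ n ∈ S, ∏ j ∈ range K, f n (a + (j : ZMod N) * d) ≤
          (τ ^ K * S.card) + N * (c / 2 * S.card) := by
        intro a
        rw [← Finset.add_sum_erase Finset.univ _ (Finset.mem_univ (0 : ZMod N))]
        refine add_le_add ?_ ?_
        · calc ∑ n ∈ S, ∏ j ∈ range K, f n (a + (j : ZMod N) * 0) ≤ ∑ _n ∈ S, τ ^ K :=
                Finset.sum_le_sum fun n _ => hprodτ n a 0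
            _ = τ ^ K * S.card := by rw [Finset.sum_const, nsmul_eq_mul, mul_comm]
        · calc ∑ d ∈ Finset.univ.erase (0 : ZMod N), ∑ n ∈ S, ∏ j ∈ range K, f n (a + (j : ZMod N) * d)
              ≤ ∑ _d ∈ Finset.univ.erase (0 : ZMod N), c / 2 * S.card :=
                Finset.sum_le_sum fun d hd => (hcon a d (Finset.ne_of_mem_erase hd)).le
            _ = ((Finset.univ.erase (0 : ZMod N)).card : ℝ) * (c / 2 * S.card) := by
                rw [Finset.sum_const, nsmul_eq_mul]
            _ ≤ N * (c / 2 * S.card) := by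
                refine mul_le_mul_of_nonneg_right ?_ (by positivity)
                have : (Finset.univ.erase (0 : ZMod N)).card ≤ N := by
                  rw [Finset.card_erase_of_mem (Finset.mem_univ _), hcardZ]
                  omega
                exact_mod_cast this
      -- strict version
      have h3 : ∃ a : ZMod N, True := ⟨0, trivial⟩
      have h4 : ∑ a : ZMod N, ∑ d : ZMod N, ∑ n ∈ S, ∏ j ∈ range K, f n (a + (j : ZMod N) * d) ≤
          N * ((τ ^ K * S.card) + N * (c / 2 * S.card)) := by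
        calc _ ≤ ∑ _a : ZMod N, ((τ ^ K * S.card) + N * (c / 2 * S.card)) := Finset.sum_le_sum fun a _ => h2 a
          _ = _ := by rw [Finset.sum_const, hcardZ, nsmul_eq_mul]
      -- strictness comes from the strict inequality for one `d ≠ 0`
      have hN2 : 2 ≤ N := hNp.two_le
      have h5 : ∀ a : ZMod N, ∑ d : ZMod N, ∑ n ∈ S, ∏ j ∈ range K, f n (a + (j : ZMod N) * d) <
          (τ ^ K * S.card) + N * (c / 2 * S.card) := by
        intro a
        rw [← Finset.add_sum_erase Finset.univ _ (Finset.mem_univ (0 : ZMod N))]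
        refine add_lt_add_of_le_of_lt ?_ ?_
        · calc ∑ n ∈ S, ∏ j ∈ range K, f n (a + (j : ZMod N) * 0) ≤ ∑ _n ∈ S, τ ^ K :=
                Finset.sum_le_sum fun n _ => hprodτ n a 0
            _ = τ ^ K * S.card := by rw [Finset.sum_const, nsmul_eq_mul, mul_comm]
        · calc ∑ d ∈ Finset.univ.erase (0 : ZMod N), ∑ n ∈ S, ∏ j ∈ range K, f n (a + (j : ZMod N) * d)
              ≤ ∑ _d ∈ Finset.univ.erase (0 : ZMod N), c / 2 * S.card :=
                Finset.sum_le_sum fun d hd => (hcon a d (Finset.ne_of_mem_erase hd)).le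
            _ = ((Finset.univ.erase (0 : ZMod N)).card : ℝ) * (c / 2 * S.card) := by
                rw [Finset.sum_const, nsmul_eq_mul]
            _ < N * (c / 2 * S.card) := by
                refine mul_lt_mul_of_pos_right ?_ (by positivity)
                have : (Finset.univ.erase (0 : ZMod N)).card < N := by
                  rw [Finset.card_erase_of_mem (Finset.mem_univ _), hcardZ]
                  omega
                exact_mod_cast this
      have h6 : ∑ a : ZMod N, ∑ d : ZMod N, ∑ n ∈ S, ∏ j ∈ range K, f n (a + (j : ZMod N) * d) <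
          N * ((τ ^ K * S.card) + N * (c / 2 * S.card)) := by
        calc _ < ∑ _a : ZMod N, ((τ ^ K * S.card) + N * (c / 2 * S.card)) :=
              Finset.sum_lt_sum_of_nonempty ⟨0, Finset.mem_univ _⟩ fun a _ => h5 a
          _ = _ := by rw [Finset.sum_const, hcardZ, nsmul_eq_mul]
      have h7 : τ ^ K ≤ N * (c / 2) := by
        refine hτK.trans ?_
        have e1 : (N : ℝ) = (N : ℝ) ^ (1 / 4 : ℝ) * (N : ℝ) ^ (3 / 4 : ℝ) := by
          rw [← Real.rpow_add hNr]
          norm_num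
        have h8 : 1 ≤ (N : ℝ) ^ (3 / 4 : ℝ) * (c / 2) := by
          have := mul_le_mul_of_nonneg_right hNc (show (0 : ℝ) ≤ c / 2 by positivity)
          have e2 : 2 / c * (c / 2) = 1 := by field_simp
          linarith
        calc (N : ℝ) ^ (1 / 4 : ℝ) = (N : ℝ) ^ (1 / 4 : ℝ) * 1 := by ring
          _ ≤ (N : ℝ) ^ (1 / 4 : ℝ) * ((N : ℝ) ^ (3 / 4 : ℝ) * (c / 2)) :=
              mul_le_mul_of_nonneg_left h8 (by positivity)
          _ = N * (c / 2) := by rw [← mul_assoc, ← e1]
      have h9 : N * ((τ ^ K * S.card) + N * (c / 2 * S.card)) ≤ c * (N : ℝ) ^ 2 * S.card := by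
        have h10 : τ ^ K * S.card ≤ N * (c / 2) * S.card := mul_le_mul_of_nonneg_right h7 hScpos.le
        calc N * ((τ ^ K * S.card) + N * (c / 2 * S.card)) ≤ N * ((N * (c / 2) * S.card) + N * (c / 2 * S.card)) := by
              refine mul_le_mul_of_nonneg_left ?_ hNr.le
              linarith
          _ = c * (N : ℝ) ^ 2 * S.card := by ring
      rw [h1] at hmain
      linarith
    -- the good windows
    set S' := S.filter (fun n => ∀ j < K, P n (a + (j : ZMod N) * d)) with hS'
    have hS'c : ρ * S.card ≤ S'.card := by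
      have h1 : ∑ n ∈ S, ∏ j ∈ range K, f n (a + (j : ZMod N) * d) ≤ τ ^ K * S'.card := by
        have h2 : ∀ n ∈ S, ∏ j ∈ range K, f n (a + (j : ZMod N) * d) ≤
            if (∀ j < K, P n (a + (j : ZMod N) * d)) then τ ^ K else 0 := by
          intro n _
          split_ifs with h
          · exact hprodτ n a d
          · push Not at h
            obtain ⟨j, hj, hnj⟩ := h
            refine le_of_eq (Finset.prod_eq_zero (Finset.mem_range.2 hj) ?_)
            rw [hf]
            simp only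
            rw [if_neg hnj]
        refine (Finset.sum_le_sum h2).trans (le_of_eq ?_)
        rw [← Finset.sum_filter, Finset.sum_const, nsmul_eq_mul, mul_comm]
      have h3 : c / 2 * S.card ≤ τ ^ K * S'.card := had.trans h1
      rw [hρ, div_mul_eq_mul_div, div_le_iff₀ (by positivity)]
      linarith
    have hS'ne : S'.Nonempty := by
      rw [← Finset.card_pos]
      have : (0 : ℝ) < S'.card := lt_of_lt_of_le (by positivity) hS'c
      exact_mod_cast this
    obtain ⟨n₁, hn₁⟩ := hS'ne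
    have hhalf : ∀ j < K, 2 * (a + (j : ZMod N) * d).val < N := fun j hj =>
      ((Finset.mem_filter.1 hn₁).2 j hj).1
    obtain ⟨i₀, D, hD1, hDN, hi₀, hpr⟩ := prog (by omega) a d hd hhalf
    refine ⟨w * D, ?_, Nat.mul_le_mul_left _ hDN, ?_⟩
    · exact Nat.mul_pos hw hD1
    · have hinj : S'.card ≤ (good k r θ c' (t * (w * D)) x).card := by
        refine Finset.card_le_card_of_injOn (fun n => n + w * t * i₀) ?_ ?_
        · intro n hn
          have hn' := Finset.mem_filter.1 hn
          have hb := hSx n hn'.1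
          show n + w * t * i₀ ∈ good k r θ c' (t * (w * D)) x
          unfold good
          rw [Finset.mem_filter, Finset.mem_Icc]
          refine ⟨⟨by omega, ?_⟩, ?_⟩
          · have : w * t * i₀ ≤ w * t * N := Nat.mul_le_mul_left _ hi₀.le
            omega
          · intro j hj
            obtain ⟨j', hj', hjj⟩ := hpr j (by omega)
            have h1 := (hνE n hn'.1 _ (hn'.2 j' hj').1 (hn'.2 j' hj').2).1
            have e1 : n + w * t * i₀ + t * (w * D) * j = n + w * t * (a + (j' : ZMod N) * d).val := by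
              rw [← hjj]
              ring
            rw [e1]
            exact h1
        · intro n _ n' _ h
          simpa using h
      have h1 : (x : ℝ) / Real.log x ^ (C + 1) ≤ ρ * ((x : ℝ) / Real.log x ^ C) := by
        rw [pow_succ, ← div_div, div_eq_mul_one_div, mul_comm]
        refine mul_le_mul_of_nonneg_right ?_ (by positivity)
        rw [div_le_iff₀ (by linarith)]
        have := mul_le_mul_of_nonneg_left hlρ hρ0.le
        have e1 : ρ * (1 / ρ) = 1 := by field_simp
        linarith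
      calc (x : ℝ) / Real.log x ^ (C + 1) ≤ ρ * ((x : ℝ) / Real.log x ^ C) := h1
        _ ≤ ρ * S.card := mul_le_mul_of_nonneg_left hScard hρ0.le
        _ ≤ S'.card := hS'c
        _ ≤ _ := by exact_mod_cast hinj
  refine ⟨c', C + 1, hc', ⟨max x0 x1, key⟩, ?_⟩
  -- one `e` for infinitely many `x`
  by_contra hcon
  push Not at hcon
  have h1 : ∀ e : ℕ, ∃ X : ℕ, 1 ≤ e → e ≤ w * N → ∀ x : ℕ, X ≤ x →
      ((good k r θ c' (t * e) x).card : ℝ) < (x : ℝ) / Real.log x ^ (C + 1) := by
    intro e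
    by_cases he : 1 ≤ e ∧ e ≤ w * N
    · obtain ⟨X, hX'⟩ := hcon e he.1 he.2
      exact ⟨X, fun _ _ x hx => hX' x hx⟩
    · exact ⟨0, fun h2 h3 => absurd ⟨h2, h3⟩ he⟩
  choose X hX' using h1
  obtain ⟨e, he1, he2, he3⟩ := key (max (max x0 x1) ((range (w * N + 1)).sup X)) (le_max_left _ _)
  have h2 : X e ≤ max (max x0 x1) ((range (w * N + 1)).sup X) :=
    (Finset.le_sup (f := X) (Finset.mem_range.2 (by omega))).trans (le_max_right _ _)
  exact absurd he3 (not_le.2 (hX' e he1 he2 _ h2))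

end

end Pool.Agent.Lib.MP_3efbeb_nt.ER
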