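import Pool.Agent.Lib.MP_3efbeb_nt.DH.All
import Pool.Agent.Lib.MP_3efbeb_nt.ER.MAIN
import Pool.Agent.Lib.MP_3efbeb_nt.ER.RS.CS1H5
import Pool.Agent.Lib.MP_3efbeb_nt.ER.RS.GCS
import Pool.Agent.Lib.MP_3efbeb_nt.ER.RS.LFX
import Pool.Agent.Lib.MP_3efbeb_nt.ER.RS.STR
import Pool.Agent.Lib.MP_3efbeb_nt.ER.RS.CONC
import Pool.Agent.Lib.MP_3efbeb_nt.ER.RS.CLA
import Pool.Agent.Lib.MP_3efbeb_nt.ER.RS.CL
import Pool.Agent.Lib.MP_3efbeb_nt.ER.RS.REP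
import Pool.Agent.Lib.MP_3efbeb_nt.ER.RS.DMT
import Pool.Agent.Lib.MP_3efbeb_nt.ER.RS.BOXB
import Pool.Agent.Lib.MP_3efbeb_nt.ER.RS.VAR
import Pool.Agent.Lib.MP_3efbeb_nt.ER.RS.VARX
import Pool.Agent.Lib.MP_3efbeb_nt.ER.RS.REL
import Pool.Agent.Lib.MP_3efbeb_nt.ER.RS.GEN
import Pool.Agent.Lib.MP_3efbeb_nt.ER.RS.MOM
import Pool.Agent.Lib.MP_3efbeb_nt.ER.RS.PROB
import Pool.Agent.Lib.MP_3efbeb_nt.ER.SV.CW
import Pool.Agent.Lib.MP_3efbeb_nt.ER.SV.VL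
import Pool.Agent.Lib.MP_3efbeb_nt.ER.SV.BIN
import Pool.Agent.Lib.MP_3efbeb_nt.ER.SV.MER2
import Pool.Agent.Lib.MP_3efbeb_nt.ER.SV.MER
import Pool.Agent.Lib.MP_3efbeb_nt.ER.SV.ESY
import Pool.Agent.Lib.MP_3efbeb_nt.ER.SV.ESH
import Pool.Agent.Lib.MP_3efbeb_nt.ER.SV.DEN
import Pool.Agent.Lib.MP_3efbeb_nt.ER.SV.BM
import Pool.Agent.Lib.MP_3efbeb_nt.ER.SV.MEAN
import Pool.Agent.Lib.MP_3efbeb_nt.ER.SV.BON
import Pool.Agent.Lib.MP_3efbeb_nt.ER.SV.BNB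
import Pool.Agent.Lib.MP_3efbeb_nt.ER.SV.NWT
import Pool.Agent.Lib.MP_3efbeb_nt.ER.SV.PSI
import Pool.Agent.Lib.MP_3efbeb_nt.ER.SV.PAB
import Pool.Agent.Lib.MP_3efbeb_nt.ER.SV.PSL
import Pool.Agent.Lib.MP_3efbeb_nt.ER.SV.PM0
import Pool.Agent.Lib.MP_3efbeb_nt.ER.SV.PMT
import Pool.Agent.Lib.MP_3efbeb_nt.ER.SV.MHB
import Pool.Agent.Lib.MP_3efbeb_nt.ER.SV.LEV
import Pool.Agent.Lib.MP_3efbeb_nt.ER.SV.NUM
import Pool.Agent.Lib.MP_3efbeb_nt.ER.SV.PAR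
import Pool.Agent.Lib.MP_3efbeb_nt.ER.SV.M1
import Pool.Agent.Lib.MP_3efbeb_nt.ER.SV.M2
import Pool.Agent.Lib.MP_3efbeb_nt.ER.SV.HH
import Pool.Agent.Lib.MP_3efbeb_nt.ER.SV.AER
import Pool.Agent.Lib.MP_3efbeb_nt.ER.SV.SVM
import Pool.Agent.Lib.MP_3efbeb_nt.ER.SV.C1U
import Pool.Agent.Lib.MP_3efbeb_nt.ER.SV.C2U
import Pool.Agent.Lib.MP_3efbeb_nt.ER.SV.BLKB
import Pool.Agent.Lib.MP_3efbeb_nt.ER.SV.BTB
import Pool.Agent.Lib.MP_3efbeb_nt.ER.SV.AVG1B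
import Pool.Agent.Lib.MP_3efbeb_nt.ER.SV.AVGB
import Pool.Agent.Lib.MP_3efbeb_nt.ER.SV.SMB
import Pool.Agent.Lib.MP_3efbeb_nt.ER.SV.SMQ
import Pool.Agent.Lib.MP_3efbeb_nt.ER.SV.VV1
import Pool.Agent.Lib.MP_3efbeb_nt.ER.SV.PNI
import Pool.Agent.Lib.MP_3efbeb_nt.ER.SV.REC
import Pool.Agent.Lib.MP_3efbeb_nt.ER.SV.PAIRS
import Pool.Agent.Lib.MP_3efbeb_nt.ER.SV.INJ
import Pool.Agent.Lib.MP_3efbeb_nt.ER.SV.MT
import Pool.Agent.Lib.MP_3efbeb_nt.ER.SV.P3ALL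

/-!
# MP_3efbeb_nt, ER: everything together

`specER_all`: arithmetic progressions with bounded difference of numbers with exactly `r` prime factors.
-/

set_option autoImplicit false

namespace Pool.Agent.Lib.MP_3efbeb_nt.ER

/-! ## The relative Szemeredi theorem -/

namespace RS

theorem allGCS : SpecGCS := specGCS specCS1H5

theorem allSTR : SpecSTR := specSTR allGCS specLFX

theorem allCL : SpecCL := specCL allSTR (specCLA specCON)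

theorem allREL : SpecREL :=
  specREL allCL specREP specDMT (specBOXB allSTR specREP) (specVAR DH.szemeredi) specVARX

theorem allPROB : ER.SpecPROB := specPROB allREL (specMOM specGEN)

end RS

/-! ## The sieve -/

namespace SV

theorem allMER : SpecMER := specMER specMER2

theorem allES : SpecES := specESH allMER specESY

theorem allDEN : SpecDEN := specDEN specCW specVL

theorem allMEAN : SpecMEAN := specMEAN (specBM specCW specVL specBIN allES allDEN)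

theorem allBNB : SpecBNB := specBNB specBON

theorem allPM0 : SpecPM0 := specPM0 allBNB specPSI specPSL

theorem allPMT : SpecPMT := specPMT allBNB specPSI

theorem allMHB : SpecMHB := specMHB allPM0 allPMT

theorem allM1 : SpecM1 := specM1 allMEAN specPAB

theorem allM2 : SpecM2 := specM2 allMEAN specPAB (specNWT allBNB) allPM0 allPMT allBNB

end SV

theorem allSV : SpecSV :=
  SV.specSVM (SV.specPAR SV.allMHB SV.specPSL SV.specLEV SV.specNUM) SV.allM1 SV.allM2 (SV.specHH SV.allBNB)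
    SV.specAER P3.m3_all SV.allDEN SV.allMHB

/-! ## The result -/

theorem specER_all : SpecER := specMAIN RS.allPROB allSV

end Pool.Agent.Lib.MP_3efbeb_nt.ER
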