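import Pool.Agent.Lib.MP_3efbeb_nt.ER.FLU
import Pool.Agent.Lib.MP_3efbeb_nt.DL.CNT

/-!
# MP_3efbeb_nt, ER, module CNTU (helper15): the fundamental lemma for `k` linear forms in a residue class, uniform in `k`

`DL/CNT.lean` with explicit constants, on an interval `(Y0, Y1]`: for `19 k ≤ b` the relative error is
`3 exp (19 k - b)` and the additive error is `4 z ^ (16 b + 33)`.
-/

set_option autoImplicit false

namespace Pool.Agent.Lib.MP_3efbeb_nt.ER

open Finset
open scoped Classical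
open Pool.Agent.Lib.MP391708.QPA (PB rInd)
open Pool.Agent.Lib.MP_3efbeb_nt.SV
open Pool.Agent.Lib.MP_3efbeb_nt.DL

/-- CNTU: `k` linear forms, `y = r (mod M)`, `Y0 < y ≤ Y1`. -/
def SpecCNTU : Prop := ∀ (k b M r z Y0 Y1 : ℕ) (a c : Fin k → ℤ), 19 * k ≤ b → 1 ≤ M → 2 ≤ z → Y0 ≤ Y1 →
  (∀ p : ℕ, p.Prime → ¬ p ∣ M → 2 * k ≤ p) →
  (∀ p : ℕ, p.Prime → p < z → ¬ p ∣ M → ∀ i, ¬ ((p : ℤ) ∣ a i ∧ (p : ℤ) ∣ c i)) →
  |(((Ioc Y0 Y1).filter (fun y : ℕ => y % M = r % M ∧ ∀ i, Rgh M z (a i * (y : ℤ) + c i))).card : ℝ)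
      - ((Y1 : ℝ) - Y0) / M * ∏ p ∈ PR M z, (1 - (nu a c p : ℝ) / p)|
    ≤ 3 * Real.exp (19 * k - b) * (((Y1 : ℝ) - Y0) / M) * (∏ p ∈ PR M z, (1 - (nu a c p : ℝ) / p))
      + 4 * (z : ℝ) ^ (16 * b + 33)

namespace CNTUM

open CNTM

variable {k : ℕ}

/-- the count of the roots in a residue class, in an interval -/
lemma count2 (a c : Fin k → ℤ) (M r δ Y0 Y1 : ℕ) (hY : Y0 ≤ Y1) (hM : 1 ≤ M) (hδ : 0 < δ)
    (hco : Nat.Coprime M δ) :
    |((((Ioc Y0 Y1).filter (fun y : ℕ => y % M = r % M)).filter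
        (fun y : ℕ => (δ : ℤ) ∣ Pf a c y)).card : ℝ) -
      ((Y1 : ℝ) - Y0) / M * ((SieveM.nu a c δ : ℝ) / δ)| ≤ 2 * δ := by
  have h1 := count a c M r δ Y1 hM hδ hco
  have h0 := count a c M r δ Y0 hM hδ hco
  have e : ∀ (Q : ℕ → Prop) [DecidablePred Q], ((Icc 1 Y1).filter Q).card = ((Icc 1 Y0).filter Q).card +
      ((Ioc Y0 Y1).filter Q).card := by
    intro Q _
    rw [← card_union_of_disjoint]
    · congr 1
      ext y
      simp only [mem_filter, mem_union, mem_Icc, mem_Ioc]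
      constructor
      · rintro ⟨⟨h1, h2⟩, h3⟩
        by_cases h : y ≤ Y0
        · exact Or.inl ⟨⟨h1, h⟩, h3⟩
        · exact Or.inr ⟨⟨by omega, h2⟩, h3⟩
      · rintro (⟨⟨h1, h2⟩, h3⟩ | ⟨⟨h1, h2⟩, h3⟩)
        · exact ⟨⟨h1, by omega⟩, h3⟩
        · exact ⟨⟨by omega, h2⟩, h3⟩
    · rw [disjoint_left]
      intro y hy hy'
      rw [mem_filter, mem_Icc] at hy
      rw [mem_filter, mem_Ioc] at hy'
      omega
  rw [filter_filter] at h1 h0 ⊢
  rw [e] at h1
  push_cast at h1
  rw [abs_le] at h1 h0 ⊢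
  have e2 : ((Y1 : ℝ) - Y0) / M * ((SieveM.nu a c δ : ℝ) / δ) =
      (Y1 : ℝ) / M * ((SieveM.nu a c δ : ℝ) / δ) - (Y0 : ℝ) / M * ((SieveM.nu a c δ : ℝ) / δ) := by
    ring
  rw [e2]
  constructor <;> linarith [h1.1, h1.2, h0.1, h0.2]

end CNTUM

open CNTM CNTUM in
/-- CNTU. -/
theorem specCNTU : SpecCNTU := by
  intro k b M r z Y0 Y1 a c hkb hM hz hY hk2 hac
  have hkp : ∀ p : ℕ, p.Prime → ¬ p ∣ M → k < p := by
    intro p hp hpM
    have h1 := hk2 p hp hpM
    have h2 := hp.two_le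
    omega
  have hMR : (0 : ℝ) < M := by exact_mod_cast hM
  have hzR : (2 : ℝ) ≤ z := by exact_mod_cast hz
  have hYR : (0 : ℝ) ≤ (Y1 : ℝ) - Y0 := by
    have : (Y0 : ℝ) ≤ Y1 := by exact_mod_cast hY
    linarith
  set g : ℕ → ℝ := fun p => if p < z ∧ ¬ p ∣ M then (nu a c p : ℝ) / p else 0 with hg
  have hnuk : ∀ p : ℕ, p.Prime → p < z → ¬ p ∣ M → nu a c p ≤ k := by
    intro p hp hpz hpM
    rw [← nu_prime_eq a c hp]
    exact nu_le_k a c hp (hac p hp hpz hpM)
  have hdens : ∀ p : ℕ, p.Prime → 0 ≤ g p ∧ g p ≤ k / (p : ℝ) ∧ g p ≤ 1 / 2 := by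
    intro p hp
    have hp0 : (0 : ℝ) < p := by exact_mod_cast hp.pos
    rw [hg]
    simp only
    split_ifs with h
    · have h1 : (nu a c p : ℝ) ≤ k := by exact_mod_cast hnuk p hp h.1 h.2
      have h2 : (nu a c p : ℝ) / p ≤ k / p := div_le_div_of_nonneg_right h1 hp0.le
      refine ⟨by positivity, h2, h2.trans ?_⟩
      have h3 : (2 * k : ℝ) ≤ p := by exact_mod_cast hk2 p hp h.2
      rw [div_le_div_iff₀ hp0 (by norm_num)]
      linarith
    · exact ⟨le_rfl, by positivity, by norm_num⟩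
  have h1 := specFLU k b hkb z hzR ((Ioc Y0 Y1).filter (fun y : ℕ => y % M = r % M)) (vv a c M z)
    (fun _ => 1) (((Y1 : ℝ) - Y0) / M) g (by positivity) (fun _ _ => zero_le_one) hdens
  have e1 : ∑ i ∈ (Ioc Y0 Y1).filter (fun y : ℕ => y % M = r % M), (1 : ℝ) * rInd z (vv a c M z i) =
      (((Ioc Y0 Y1).filter (fun y : ℕ => y % M = r % M ∧
        ∀ i, Rgh M z (a i * (y : ℤ) + c i))).card : ℝ) := by
    rw [← Finset.filter_filter, Finset.card_filter (fun y : ℕ => ∀ i, Rgh M z (a i * (y : ℤ) + c i))]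
    push_cast
    refine sum_congr rfl fun y _ => ?_
    rw [one_mul, rInd_vv]
  have e2 : ∏ p ∈ PB (z : ℝ), (1 - g p) = ∏ p ∈ PR M z, (1 - (nu a c p : ℝ) / p) := by
    have h2 : PB (z : ℝ) = (range z).filter Nat.Prime := by
      unfold PB
      rw [Nat.ceil_natCast]
    have h3 : PR M z = (PB (z : ℝ)).filter (fun p => p < z ∧ ¬ p ∣ M) := by
      ext p
      rw [mem_PR, h2, mem_filter, mem_filter, mem_range]
      tauto
    rw [h3, prod_filter]
    refine prod_congr rfl fun p _ => ?_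
    rw [hg]
    simp only
    split_ifs <;> simp
  rw [e1, e2] at h1
  refine h1.trans ?_
  refine add_le_add le_rfl ?_
  set D := ⌊(z : ℝ) ^ (8 * b + 16)⌋₊ with hD
  have hz1 : (1 : ℝ) ≤ z := by linarith
  have hDz : (D : ℝ) ≤ (z : ℝ) ^ (8 * b + 16) := Nat.floor_le (by positivity)
  have hlog : 1 + Real.log z ≤ z := by
    have := Real.log_le_sub_one_of_pos (show (0 : ℝ) < z by linarith)
    linarith
  have hlog0 : 0 ≤ 1 + Real.log z := by
    have := Real.log_nonneg hz1
    linarith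
  have hrem : (∑ δ ∈ (Icc 1 D).filter
        (fun δ => Squarefree δ ∧ ∀ p : ℕ, p.Prime → p ∣ δ → (p : ℝ) < (z : ℝ)),
        |(∑ i ∈ ((Ioc Y0 Y1).filter (fun y : ℕ => y % M = r % M)).filter
          (fun i => δ ∣ vv a c M z i), (1 : ℝ)) - ((Y1 : ℝ) - Y0) / M * ∏ p ∈ δ.primeFactors, g p|) ≤
      2 * (z : ℝ) ^ (16 * b + 32) := by
    calc _ ≤ (∑ δ ∈ (Icc 1 D).filter
              (fun δ : ℕ => Squarefree δ ∧ ∀ p : ℕ, p.Prime → p ∣ δ → (p : ℝ) < (z : ℝ)),
              (2 * δ : ℝ)) := by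
          refine sum_le_sum fun δ hδ => ?_
          rw [mem_filter, mem_Icc] at hδ
          obtain ⟨⟨hδ1, -⟩, hsq, hpz⟩ := hδ
          have hpz' : ∀ p : ℕ, p.Prime → p ∣ δ → p < z := fun p hp hd => by
            exact_mod_cast hpz p hp hd
          by_cases hco : Nat.Coprime M δ
          · have h2 := count2 a c M r δ Y0 Y1 hY hM (by omega) hco
            have e3 : (∑ i ∈ ((Ioc Y0 Y1).filter (fun y : ℕ => y % M = r % M)).filter
                (fun i => δ ∣ vv a c M z i), (1 : ℝ)) =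
                ((((Ioc Y0 Y1).filter (fun y : ℕ => y % M = r % M)).filter
                (fun y : ℕ => (δ : ℤ) ∣ Pf a c y)).card : ℝ) := by
              rw [sum_const, nsmul_eq_mul, mul_one]
              congr 2
              refine filter_congr fun y _ => ?_
              rw [dvd_vv hsq hpz']
              exact ⟨fun h => h.2, fun h => ⟨hco, h⟩⟩
            have e4 : ∏ p ∈ δ.primeFactors, g p = (SieveM.nu a c δ : ℝ) / δ := by
              rw [SieveM.nu_squarefree a c hsq]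
              push_cast
              conv_rhs => rw [← Nat.prod_primeFactors_of_squarefree hsq]
              push_cast
              rw [Nat.prod_primeFactors_of_squarefree hsq, ← prod_div_distrib]
              refine prod_congr rfl fun p hp => ?_
              have hp1 := Nat.prime_of_mem_primeFactors hp
              have hp2 := Nat.dvd_of_mem_primeFactors hp
              rw [hg]
              simp only
              rw [if_pos, nu_prime_eq a c hp1]
              refine ⟨hpz' p hp1 hp2, fun hpM => ?_⟩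
              exact hp1.one_lt.ne' (Nat.dvd_one.1 (hco ▸ Nat.dvd_gcd hpM hp2))
            rw [e3, e4]
            exact h2
          · have e3 : ((Ioc Y0 Y1).filter (fun y : ℕ => y % M = r % M)).filter
                (fun i => δ ∣ vv a c M z i) = ∅ := by
              apply Finset.filter_eq_empty_iff.2
              intro y _ hd
              exact hco ((dvd_vv hsq hpz').1 hd).1
            have e4 : ∏ p ∈ δ.primeFactors, g p = 0 := by
              obtain ⟨p, hp, hpM, hpδ⟩ := Nat.Prime.not_coprime_iff_dvd.1 hco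
              refine prod_eq_zero (Nat.mem_primeFactors.2 ⟨hp, hpδ, by omega⟩) ?_
              rw [hg]
              simp only
              rw [if_neg]
              exact fun h => h.2 hpM
            rw [e3, e4]
            simp
      _ ≤ (∑ δ ∈ Icc 1 D, (2 * δ : ℝ)) :=
          sum_le_sum_of_subset_of_nonneg (filter_subset _ _) fun _ _ _ => by positivity
      _ ≤ (∑ δ ∈ Icc 1 D, (2 * D : ℝ)) := by
          refine sum_le_sum fun δ hδ => ?_
          have : (δ : ℝ) ≤ D := by exact_mod_cast (mem_Icc.1 hδ).2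
          linarith
      _ = 2 * ((D : ℝ) * D) := by
          rw [sum_const, Nat.card_Icc, nsmul_eq_mul, Nat.add_sub_cancel]
          ring
      _ ≤ 2 * ((z : ℝ) ^ (8 * b + 16) * (z : ℝ) ^ (8 * b + 16)) :=
          mul_le_mul_of_nonneg_left (mul_le_mul hDz hDz (by positivity) (by positivity)) (by norm_num)
      _ = 2 * (z : ℝ) ^ (16 * b + 32) := by
          rw [← pow_add]
          congr 2
          ring
  refine (mul_le_mul (mul_le_mul_of_nonneg_left hlog (by norm_num)) hrem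
    (sum_nonneg fun _ _ => abs_nonneg _) (by positivity)).trans (le_of_eq ?_)
  ring

end Pool.Agent.Lib.MP_3efbeb_nt.ER
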