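import Mathlib

/-!
# MP_3efbeb_nt, ER: arithmetic progressions with bounded difference of numbers with exactly `r` prime factors (helper5)

THEOREM (`SpecER`). For all `k` and `θ > 0` there is `r₀` such that for EVERY `r ≥ r₀` there is `G` such that for every
`t ≥ 1` there are `c > 0` and `C` with: for all large `x` there is `e ≤ G` such that at least `x / (log x) ^ C` of the
`n ≤ x` are such that all the numbers `n + t e j`, `j < k`, have exactly `r` prime factors (with multiplicity), all of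
them `> x ^ c`, one of them `> x ^ (1 - θ)`; and one `e ≤ G` serves infinitely many `x`.

Two halves, joined by `MAIN`:
* RS (helper12, helper53), folder `ER/RS`: `SpecPROB`, the relative Szemeredi theorem for a random weight on `ZMod N`;
* SV (helper33, helper15, helper16), folder `ER/SV`: `SpecSV`, the windows `n + w i`, the majorant and its moments.
-/

set_option autoImplicit false

namespace Pool.Agent.Lib.MP_3efbeb_nt.ER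

open Finset
open scoped Classical

noncomputable section

/-- `m` has exactly `r` prime factors (with multiplicity), all of them `> x ^ c`, one of them `> x ^ (1 - θ)` -/
def Er (r : ℕ) (θ c : ℝ) (x m : ℕ) : Prop :=
  m.primeFactorsList.length = r ∧ (∀ p : ℕ, p.Prime → p ∣ m → (x : ℝ) ^ c < p) ∧
    ∃ P : ℕ, P.Prime ∧ P ∣ m ∧ (x : ℝ) ^ (1 - θ) < P

/-- the `n ≤ x` such that `n + e j`, `j < k`, have property `Er` -/
def good (k r : ℕ) (θ c : ℝ) (e x : ℕ) : Finset ℕ :=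
  (Icc 1 x).filter (fun n => ∀ j < k, Er r θ c x (n + e * j))

/-! ## The two interfaces -/

/-- PROB (interface of RS). `S`: sample space with uniform mean. `K0` = number of forms, depends on `k` only. -/
def SpecPROB : Prop := ∀ k : ℕ, 2 ≤ k → ∃ K0 : ℕ, ∀ δ : ℝ, 0 < δ → ∃ c : ℝ, 0 < c ∧ ∃ N0 : ℕ, ∀ (N : ℕ) [NeZero N],
  N.Prime → N0 ≤ N → ∀ (S : Finset ℕ) (ν f : ℕ → ZMod N → ℝ), S.Nonempty →
  (∀ n ∈ S, ∀ i, 0 ≤ f n i ∧ f n i ≤ ν n i) →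
  (∀ T : Finset (ZMod N), T.card ≤ K0 → |(∑ n ∈ S, ∏ i ∈ T, ν n i) - S.card| ≤ S.card / Real.sqrt N) →
  (∀ m : ZMod N → ℕ, ∑ i, m i ≤ K0 → ∑ n ∈ S, ∏ i, ν n i ^ m i ≤ (N : ℝ) ^ (1 / 4 : ℝ) * S.card) →
  δ * N * S.card ≤ ∑ n ∈ S, ∑ i, f n i →
  c * (N : ℝ) ^ 2 * S.card ≤ ∑ n ∈ S, ∑ a : ZMod N, ∑ d : ZMod N, ∏ j ∈ range k, f n (a + (j : ZMod N) * d)

/-- SV (interface of the sieve part). For every `r ≥ r₀` a prime `N ≥ N₀` (`N` is a small power of `e ^ r`), a step `w`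
(divisible by the primes `≤ N`, and more), a threshold `τ` (`1 / E h`); for every `t ≥ 1` and large `x` the set `S` of
the starting points `n` of the rough windows `n + w t i`, `2 i < N`, and the normalised majorant `ν n i = h(n + w t i) / E h`
for `2 i < N`, `ν n i = 1` for the other `i`. `1 ≤ τ`, `τ ^ Q ≤ N ^ (1/4)`. `A n i`: `n + w t i = a P` with `P` prime,
`a` a squarefree product of `r - 1` primes of the lower range (the part of `Er` which the majorant sees). -/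
def SpecSV : Prop := ∀ (Q : ℕ) (θ : ℝ), 0 < θ → ∃ δ : ℝ, 0 < δ ∧ ∀ N0 : ℕ, ∃ r0 : ℕ, ∀ r : ℕ, r0 ≤ r →
  ∃ (N : ℕ) (_ : NeZero N) (w : ℕ) (τ : ℝ), N.Prime ∧ N0 ≤ N ∧ 1 ≤ w ∧ 1 ≤ τ ∧ τ ^ Q ≤ (N : ℝ) ^ (1 / 4 : ℝ) ∧
  ∀ t : ℕ, 1 ≤ t → ∃ (c : ℝ) (C x0 : ℕ), 0 < c ∧ ∀ x : ℕ, x0 ≤ x →
  ∃ (S : Finset ℕ) (ν : ℕ → ZMod N → ℝ) (A : ℕ → ℕ → Prop), S.Nonempty ∧ (∀ n ∈ S, 1 ≤ n ∧ n + w * t * N ≤ x) ∧
  (x : ℝ) / Real.log x ^ C ≤ S.card ∧ (∀ n ∈ S, ∀ i, 0 ≤ ν n i) ∧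
  (∀ n ∈ S, ∀ i : ℕ, 2 * i < N → A n i → Er r θ c x (n + w * t * i) ∧ τ ≤ ν n i) ∧
  (∀ T : Finset (ZMod N), T.card ≤ Q → |(∑ n ∈ S, ∏ i ∈ T, ν n i) - S.card| ≤ S.card / Real.sqrt N) ∧
  (∀ m : ZMod N → ℕ, ∑ i, m i ≤ Q → ∑ n ∈ S, ∏ i, ν n i ^ m i ≤ (N : ℝ) ^ (1 / 4 : ℝ) * S.card) ∧
  δ * N * S.card ≤ τ * ∑ n ∈ S, (((range N).filter (fun i => 2 * i < N ∧ A n i)).card : ℝ)

/-! ## The result -/

/-- ER. -/
def SpecER : Prop := ∀ (k : ℕ) (θ : ℝ), 0 < θ → ∃ r0 : ℕ, ∀ r : ℕ, r0 ≤ r → ∃ G : ℕ, ∀ t : ℕ, 1 ≤ t →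
  ∃ (c : ℝ) (C : ℕ), 0 < c ∧
    (∃ x0 : ℕ, ∀ x : ℕ, x0 ≤ x → ∃ e : ℕ, 1 ≤ e ∧ e ≤ G ∧
      (x : ℝ) / Real.log x ^ C ≤ (good k r θ c (t * e) x).card) ∧
    ∃ e : ℕ, 1 ≤ e ∧ e ≤ G ∧ ∀ X : ℕ, ∃ x : ℕ, X ≤ x ∧ (x : ℝ) / Real.log x ^ C ≤ (good k r θ c (t * e) x).card

end

end Pool.Agent.Lib.MP_3efbeb_nt.ER
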